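import Pool.Agent.Y661.HE.Stm

/-! Asymptotics I. -/

set_option autoImplicit false

open Filter

namespace Pool.Agent.Y407.HE.AS1

/-- the numerical facts for one large dimension -/
theorem core (β : ℝ) (hβ : 0 < β) (hβ2 : β < 1 / 2) (d : ℕ) (hd : 1 ≤ d)
    (h30 : 30 ≤ Real.log d) (h1 : 12 ≤ β ^ 2 * Real.log d) (h2 : 8 ≤ (1 / 2 - β) * Real.log d)
    (N : ℕ) (hN : N = ⌈(d : ℝ) ^ β⌉₊) (c : ℝ) (hc : 0 < c) (hc2 : c ≤ (d : ℝ) ^ (1 / 4 : ℝ)) :
    16 * c * N / d ≤ 1 ∧ 9 * c * (4 * c * N / d) ^ N ≤ Real.exp (-(d : ℝ) ^ β) / 8 ∧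
    2 * N * Real.exp (-(2 * (Real.exp (-(d : ℝ) ^ β) / (8 * N)) ^ 2 * (Real.sqrt d) ^ N /
      (9 * c ^ 2 * ((N : ℝ) * N + 1) ^ 2 * ((N + 1).factorial : ℝ)))) ≤
      Real.exp (-Real.exp (2 * (d : ℝ) ^ β)) := by
  have hd0 : (0 : ℝ) < d := by exact_mod_cast (by omega : 0 < d)
  set L := Real.log d with hL
  have hdL : (d : ℝ) = Real.exp L := (Real.exp_log hd0).symm
  set T := (d : ℝ) ^ β with hT
  have hTL : T = Real.exp (β * L) := by
    rw [hT, Real.rpow_def_of_pos hd0, mul_comm]
  have hc3 : c ≤ Real.exp (L / 4) := by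
    refine hc2.trans (le_of_eq ?_)
    rw [Real.rpow_def_of_pos hd0]
    congr 1
    ring
  have hL0 : 0 < L := by linarith
  have hbL : 0 < β * L := mul_pos hβ hL0
  -- T is much larger than L
  have hT6 : 6 * L ≤ T := by
    rw [hTL]
    have h3 := Real.quadratic_le_exp_of_nonneg hbL.le
    nlinarith
  have hT1 : 1 ≤ T := by linarith
  have hTN : T ≤ N := by rw [hN]; exact Nat.le_ceil _
  have hNT : (N : ℝ) ≤ T + 1 := by rw [hN]; exact (Nat.ceil_lt_add_one (by linarith)).le
  have hN2 : (N : ℝ) ≤ 2 * T := by linarith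
  have hN0 : (0 : ℝ) < N := by linarith
  have hbL2 : β * L ≤ L / 2 := by nlinarith
  -- 4 c N / d
  have h4 : 4 * c * N / d ≤ 8 * Real.exp (-(L / 4)) := by
    rw [div_le_iff₀ hd0, hdL]
    calc 4 * c * N ≤ 4 * Real.exp (L / 4) * (2 * T) := by gcongr
      _ = 8 * (Real.exp (L / 4) * Real.exp (β * L)) := by rw [hTL]; ring
      _ ≤ 8 * (Real.exp (L / 4) * Real.exp (L / 2)) := by
          have := Real.exp_le_exp.2 hbL2
          gcongr
      _ = 8 * Real.exp (-(L / 4)) * Real.exp L := by
          rw [mul_assoc, ← Real.exp_add, ← Real.exp_add]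
          congr 2
          ring
  have hexp1 : (2.7 : ℝ) ≤ Real.exp 1 := by have := Real.exp_one_gt_d9; linarith
  have hexp : ∀ n : ℕ, (2.7 : ℝ) ^ n ≤ Real.exp n := by
    intro n
    have := pow_le_pow_left₀ (by norm_num) hexp1 n
    rwa [← Real.exp_nat_mul, mul_one] at this
  have h5 : 8 * Real.exp (-(L / 4)) ≤ Real.exp (-2) := by
    have h6 : Real.exp (-(L / 4)) ≤ Real.exp (-5 + -2) := Real.exp_le_exp.2 (by linarith)
    rw [Real.exp_add] at h6
    have h7 : 8 * Real.exp (-5) ≤ 1 := by
      rw [Real.exp_neg, ← div_eq_mul_inv, div_le_one (Real.exp_pos _)]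
      have := hexp 5
      norm_num at this ⊢
      linarith
    nlinarith [Real.exp_pos (-2)]
  have h45 : 4 * c * N / d ≤ Real.exp (-2) := h4.trans h5
  have h40 : 0 ≤ 4 * c * N / d := by positivity
  refine ⟨?_, ?_, ?_⟩
  · have h8 : 16 * c * N / d = 4 * (4 * c * N / d) := by ring
    rw [h8]
    have h9 : 4 * Real.exp (-2) ≤ 1 := by
      rw [Real.exp_neg, ← div_eq_mul_inv, div_le_one (Real.exp_pos _)]
      have := hexp 2
      norm_num at this ⊢
      linarith
    linarith
  · have h10 : (4 * c * N / d) ^ N ≤ Real.exp (-(2 * T)) := by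
      refine (pow_le_pow_left₀ h40 h45 N).trans ?_
      rw [← Real.exp_nat_mul, Real.exp_le_exp]
      nlinarith
    have h11 : 72 * c ≤ Real.exp T := by
      have h12 : (72 : ℝ) ≤ Real.exp 5 := by
        have := hexp 5
        norm_num at this ⊢
        linarith
      calc 72 * c ≤ Real.exp 5 * Real.exp (L / 4) := by gcongr
        _ = Real.exp (5 + L / 4) := (Real.exp_add _ _).symm
        _ ≤ Real.exp T := Real.exp_le_exp.2 (by linarith)
    have h13 : Real.exp (-(2 * T)) = Real.exp (-T) * Real.exp (-T) := by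
      rw [← Real.exp_add]; congr 1; ring
    have h14 : Real.exp T * Real.exp (-T) = 1 := by
      rw [← Real.exp_add, add_neg_cancel, Real.exp_zero]
    calc 9 * c * (4 * c * N / d) ^ N ≤ 9 * c * (Real.exp (-T) * Real.exp (-T)) := by
          rw [← h13]; gcongr
      _ = (72 * c) * Real.exp (-T) * Real.exp (-T) / 8 := by ring
      _ ≤ Real.exp T * Real.exp (-T) * Real.exp (-T) / 8 := by gcongr
      _ = Real.exp (-T) / 8 := by rw [h14, one_mul]
  · -- the exponent
    set s := β * L + 2 with hs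
    have hs0 : 0 < s := by linarith
    have hN1 : (N : ℝ) + 1 ≤ Real.exp s := by
      rw [hs, Real.exp_add, ← hTL]
      have h15 : (3 : ℝ) ≤ Real.exp 2 := by
        have := hexp 2
        norm_num at this ⊢
        linarith
      nlinarith
    have hN1' : (N : ℝ) ≤ Real.exp s := by linarith
    have hfac : ((N + 1).factorial : ℝ) ≤ Real.exp ((N + 1) * s) := by
      have h16 : ((N + 1).factorial : ℝ) ≤ ((N + 1 : ℕ) : ℝ) ^ (N + 1) := by
        exact_mod_cast Nat.factorial_le_pow (N + 1)
      refine h16.trans ?_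
      push_cast
      refine (pow_le_pow_left₀ (by positivity) hN1 (N + 1)).trans (le_of_eq ?_)
      rw [← Real.exp_nat_mul]
      push_cast
      rfl
    have hsq : ((N : ℝ) * N + 1) ^ 2 ≤ Real.exp (4 * s) := by
      have h17 : (N : ℝ) * N + 1 ≤ Real.exp s ^ 2 := by nlinarith
      calc ((N : ℝ) * N + 1) ^ 2 ≤ (Real.exp s ^ 2) ^ 2 := by
            apply pow_le_pow_left₀ (by positivity) h17
        _ = Real.exp (4 * s) := by
            rw [← pow_mul, ← Real.exp_nat_mul]
            norm_num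
    have hcsq : c ^ 2 ≤ Real.exp (L / 2) := by
      calc c ^ 2 ≤ Real.exp (L / 4) ^ 2 := pow_le_pow_left₀ hc.le hc3 2
        _ = Real.exp (L / 2) := by
            rw [← Real.exp_nat_mul]
            congr 1
            push_cast
            ring
    have hNsq : (N : ℝ) ^ 2 ≤ Real.exp (2 * s) := by
      calc (N : ℝ) ^ 2 ≤ Real.exp s ^ 2 := pow_le_pow_left₀ hN0.le hN1' 2
        _ = Real.exp (2 * s) := by rw [← Real.exp_nat_mul]; norm_num
    have hsqrt : (Real.sqrt d) ^ N = Real.exp (N * (L / 2)) := by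
      rw [Real.exp_nat_mul]
      congr 1
      rw [hdL, ← Real.exp_half]
    have h288 : (288 : ℝ) ≤ Real.exp 6 := by
      have := hexp 6
      norm_num at this ⊢
      linarith
    set B := 9 * c ^ 2 * ((N : ℝ) * N + 1) ^ 2 * ((N + 1).factorial : ℝ) with hB
    have hB0 : 0 < B := by
      rw [hB]
      have : (0 : ℝ) < ((N + 1).factorial : ℝ) := by exact_mod_cast Nat.factorial_pos _
      positivity
    have hBle : 32 * (N : ℝ) ^ 2 * B ≤
        Real.exp (6 + 2 * s + L / 2 + 4 * s + (N + 1) * s) := by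
      calc 32 * (N : ℝ) ^ 2 * B = 288 * (N : ℝ) ^ 2 * c ^ 2 * ((N : ℝ) * N + 1) ^ 2 *
            ((N + 1).factorial : ℝ) := by rw [hB]; ring
        _ ≤ Real.exp 6 * Real.exp (2 * s) * Real.exp (L / 2) * Real.exp (4 * s) *
            Real.exp ((N + 1) * s) := by gcongr
        _ = _ := by rw [← Real.exp_add, ← Real.exp_add, ← Real.exp_add, ← Real.exp_add]
    have hX : Real.exp (3 * T) ≤ 2 * (Real.exp (-T) / (8 * N)) ^ 2 * (Real.sqrt d) ^ N / B := by
      rw [le_div_iff₀ hB0, hsqrt]
      have h18 : 2 * (Real.exp (-T) / (8 * N)) ^ 2 * Real.exp (N * (L / 2)) =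
          Real.exp (-(2 * T) + N * (L / 2)) / (32 * (N : ℝ) ^ 2) := by
        rw [div_pow, mul_pow, Real.exp_add]
        have : Real.exp (-(2 * T)) = Real.exp (-T) ^ 2 := by
          rw [← Real.exp_nat_mul]; congr 1; push_cast; ring
        rw [this]
        field_simp
        ring
      rw [h18, le_div_iff₀ (by positivity)]
      calc Real.exp (3 * T) * B * (32 * (N : ℝ) ^ 2) = Real.exp (3 * T) * (32 * (N : ℝ) ^ 2 * B) := by
            ring
        _ ≤ Real.exp (3 * T) * Real.exp (6 + 2 * s + L / 2 + 4 * s + (N + 1) * s) := by gcongr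
        _ = Real.exp (3 * T + (6 + 2 * s + L / 2 + 4 * s + (N + 1) * s)) := (Real.exp_add _ _).symm
        _ ≤ Real.exp (-(2 * T) + N * (L / 2)) := by
            rw [Real.exp_le_exp]
            have h19 : (N : ℝ) * ((1 / 2 - β) * L - 2) ≥ T * ((1 / 2 - β) * L - 2) := by
              apply mul_le_mul_of_nonneg_right hTN
              linarith
            have h20 : T * ((1 / 2 - β) * L - 2) ≥ T * 6 := by
              apply mul_le_mul_of_nonneg_left _ (by linarith)
              linarith
            have h21 : (N : ℝ) * (L / 2) - N * s = N * ((1 / 2 - β) * L - 2) := by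
              rw [hs]; ring
            have h22 : s ≤ L / 2 + 2 := by rw [hs]; linarith
            have h29 : ((N : ℝ) + 1) * s = N * s + s := by ring
            rw [h29]
            clear_value s T L B
            linarith
    -- conclusion
    have h23 : (2 : ℝ) * N ≤ Real.exp (Real.exp (2 * T)) := by
      have h24 := Real.add_one_le_exp (Real.exp (2 * T))
      have h26 := Real.quadratic_le_exp_of_nonneg (by linarith : 0 ≤ 2 * T)
      have h30 : T ^ 2 ≥ 2 * T - 1 := by nlinarith [sq_nonneg (T - 1)]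
      clear_value s T L B
      linarith
    calc 2 * N * Real.exp (-(2 * (Real.exp (-T) / (8 * N)) ^ 2 * (Real.sqrt d) ^ N / B))
        ≤ Real.exp (Real.exp (2 * T)) * Real.exp (-Real.exp (3 * T)) := by
          apply mul_le_mul h23 (Real.exp_le_exp.2 (neg_le_neg hX)) (Real.exp_pos _).le
            (Real.exp_pos _).le
      _ = Real.exp (Real.exp (2 * T) + -Real.exp (3 * T)) := (Real.exp_add _ _).symm
      _ ≤ Real.exp (-Real.exp (2 * T)) := by
          rw [Real.exp_le_exp]
          have h27 : Real.exp (3 * T) = Real.exp (2 * T) * Real.exp T := by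
            rw [← Real.exp_add]; congr 1; ring
          have h28 : 2 ≤ Real.exp T := by
            have := Real.add_one_le_exp T
            linarith
          rw [h27]
          nlinarith [Real.exp_pos (2 * T)]

theorem main : Pool.Agent.Y661.HE.S_AS1 := by
  intro β hβ hβ2
  have hlog : Tendsto (fun d : ℕ => Real.log (d : ℝ)) atTop atTop :=
    Real.tendsto_log_atTop.comp tendsto_natCast_atTop_atTop
  filter_upwards [eventually_ge_atTop 1, hlog.eventually_ge_atTop 30,
    hlog.eventually_ge_atTop (12 / β ^ 2), hlog.eventually_ge_atTop (8 / (1 / 2 - β))] with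
    d hd h30 h1 h2 c hc hc2
  have h1' : 12 ≤ β ^ 2 * Real.log d := by
    rw [div_le_iff₀ (by positivity)] at h1
    linarith
  have h2' : 8 ≤ (1 / 2 - β) * Real.log d := by
    rw [div_le_iff₀ (by linarith)] at h2
    linarith
  exact core β hβ hβ2 d hd h30 h1' h2' _ rfl c hc hc2

end Pool.Agent.Y407.HE.AS1
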